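import Pool.Agent.Helper92.SGE.Goals
import Pool.Agent.Helper29.BL.QSN

/-!
# SGE-QTR (MP_a41896_nt)
-/

set_option autoImplicit false

namespace Pool.Agent.Helper13.SGE

open Pool.Agent.Helper29.BL

theorem qtr : Pool.Agent.Helper92.SGE.QTR := by
  intro G _ H h e x y θ hθ0 hθ1 hxy
  have hy := h.nonneg y
  have h4 : (4 : ℝ) ^ e * H x = H ((2 ^ e) • x) := by
    rw [h.nsmul, Nat.cast_pow, Nat.cast_ofNat, ← pow_mul, mul_comm e 2, pow_mul]
    norm_num
  have hz := h.nonneg ((2 ^ e) • x)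
  have hw : √(H ((2 ^ e) • x - y)) ≤ θ * √(H y) := by
    rw [Real.sqrt_le_left (mul_nonneg hθ0 (Real.sqrt_nonneg _)), mul_pow, Real.sq_sqrt hy]
    exact hxy
  have t1 := h.triangle ((2 ^ e) • x - y) y
  rw [sub_add_cancel] at t1
  have t2 := h.triangle ((2 ^ e) • x) (-((2 ^ e) • x - y))
  rw [h.neg, ← sub_eq_add_neg, sub_sub_cancel] at t2
  rw [h4]
  have s1 : √(H ((2 ^ e) • x)) ≤ (1 + θ) * √(H y) := by linarith
  have s2 : (1 - θ) * √(H y) ≤ √(H ((2 ^ e) • x)) := by linarith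
  constructor
  · have h5 := pow_le_pow_left₀ (mul_nonneg (by linarith) (Real.sqrt_nonneg _)) s2 2
    rw [mul_pow, Real.sq_sqrt hy, Real.sq_sqrt hz] at h5
    exact h5
  · have h5 := pow_le_pow_left₀ (Real.sqrt_nonneg _) s1 2
    rw [mul_pow, Real.sq_sqrt hy, Real.sq_sqrt hz] at h5
    exact h5

end Pool.Agent.Helper13.SGE
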